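import Pool.Agent.W613.MO.ZA

/-!
# `-ζ'/ζ(s) - 1/(s-1)` is `O(log |t|)` to the right of `θ + ε` if `ζ` has no zeros to the right of `θ`
-/

set_option autoImplicit false

namespace Pool.Agent.R888.QR

open Complex Filter Topology Set Metric
open Pool.Agent.W613.MO (logDeriv_zero_free Z1 Z1_ne Z1_one Z1_entire Z1_growth)

/-- the properties of `A(s) = -ζ'/ζ(s) - 1/(s-1)` which are used -/
structure IsAq (θ : ℝ) (A : ℂ → ℂ) : Prop where
  diff : DifferentiableOn ℂ A {s : ℂ | θ < s.re}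
  eq : ∀ s : ℂ, 1 < s.re →
    A s = LSeries (fun n => (ArithmeticFunction.vonMangoldt n : ℂ)) s - 1 / (s - 1)
  bound : ∀ σ₀ : ℝ, θ < σ₀ → ∃ C : ℝ, 0 < C ∧ ∀ s : ℂ, σ₀ ≤ s.re → s.re ≤ 2 →
    ‖A s‖ ≤ C * Real.log (|s.im| + 3)

theorem Z1_ne_zero {θ : ℝ} (hz : ∀ s : ℂ, θ < s.re → s.re < 1 → riemannZeta s ≠ 0) {s : ℂ}
    (hs : θ < s.re) : Z1 s ≠ 0 := by
  by_cases h1 : s = 1
  · rw [h1, Z1_one]; exact one_ne_zero
  · rw [Z1_ne h1]
    refine mul_ne_zero (sub_ne_zero.2 h1) ?_
    rcases lt_or_ge s.re 1 with h | h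
    · exact hz s hs h
    · exact riemannZeta_ne_zero_of_one_le_re h

theorem za {θ : ℝ} (hθ : 1 / 2 ≤ θ) (hθ1 : θ < 1)
    (hz : ∀ s : ℂ, θ < s.re → s.re < 1 → riemannZeta s ≠ 0) : ∃ A : ℂ → ℂ, IsAq θ A := by
  refine ⟨fun s => -(deriv Z1 s / Z1 s), ?_, ?_, ?_⟩
  · intro s hs
    have h1 : DifferentiableAt ℂ (deriv Z1) s :=
      (Z1_entire.analyticAt s).deriv.differentiableAt
    exact ((h1.div (Z1_entire s) (Z1_ne_zero hz hs)).neg).differentiableWithinAt
  · intro s hs
    have hs1 : s ≠ 1 := by rintro rfl; simp at hs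
    have hz0 : riemannZeta s ≠ 0 := riemannZeta_ne_zero_of_one_le_re hs.le
    have hd : HasDerivAt (fun w : ℂ => (w - 1) * riemannZeta w)
        (1 * riemannZeta s + (s - 1) * deriv riemannZeta s) s :=
      ((hasDerivAt_id s).sub_const 1).mul (differentiableAt_riemannZeta hs1).hasDerivAt
    have hd2 : HasDerivAt Z1 (1 * riemannZeta s + (s - 1) * deriv riemannZeta s) s := by
      refine hd.congr_of_eventuallyEq ?_
      filter_upwards [isOpen_ne.mem_nhds hs1] with z hz
      exact Z1_ne hz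
    have hs2 : s - 1 ≠ 0 := sub_ne_zero.2 hs1
    have h3 := ArithmeticFunction.LSeries_vonMangoldt_eq_deriv_riemannZeta_div hs
    show -(deriv Z1 s / Z1 s) = _
    rw [hd2.deriv, Z1_ne hs1, h3]
    field_simp
    ring
  · intro σ₀ hσ
    rcases lt_or_ge 2 σ₀ with h2 | h2
    · exact ⟨1, one_pos, fun s h3 h4 => absurd (h3.trans h4) (not_le.2 h2)⟩
    obtain ⟨C, A, hC, hA, hgr⟩ := Z1_growth
    set K : ℝ := |Real.log (3 * C * 2 ^ A)| + A with hK
    have hK0 : 0 < K := by positivity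
    refine ⟨16 * (2 - θ) / (σ₀ - θ) ^ 2 * K, by
      have : 0 < σ₀ - θ := by linarith
      have : 0 < 2 - θ := by linarith
      positivity, fun s hs1 hs2 => ?_⟩
    have him : (3 : ℝ) ≤ |s.im| + 3 := by linarith [abs_nonneg s.im]
    set L : ℝ := Real.log (|s.im| + 3) with hL
    have hL1 : 1 ≤ L := by
      rw [hL, Real.le_log_iff_exp_le (by linarith)]
      have := Real.exp_one_lt_d9
      linarith
    set c : ℂ := ⟨2, s.im⟩ with hc
    have hcre : c.re = 2 := rfl
    have hcim : c.im = s.im := rfl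
    have hball : ∀ z ∈ ball c (2 - θ), θ < z.re ∧ z.re ≤ 6 ∧ |z.im| + 3 ≤ 2 * (|s.im| + 3) := by
      intro z hz
      rw [mem_ball, dist_eq_norm] at hz
      have h1 := (Complex.abs_re_le_norm (z - c)).trans_lt hz
      have h2 := (Complex.abs_im_le_norm (z - c)).trans_lt hz
      simp only [sub_re, sub_im, hcre, hcim] at h1 h2
      rw [abs_lt] at h1
      have h3 : |z.im| ≤ |z.im - s.im| + |s.im| := by
        have := abs_add_le (z.im - s.im) s.im
        simpa using this
      exact ⟨by linarith [h1.1], by linarith [h1.2], by linarith [abs_nonneg s.im]⟩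
    have hc1 : c ≠ 1 := by
      intro h
      have := congrArg Complex.re h
      rw [hcre, one_re] at this
      norm_num at this
    have hZc : 1 / 3 ≤ ‖Z1 c‖ := by
      rw [Z1_ne hc1, norm_mul]
      obtain ⟨hw0, hw1⟩ := SG.zeta_inv_bound c (by rw [hcre])
      rw [norm_inv] at hw1
      have hpos : 0 < ‖riemannZeta c‖ := norm_pos_iff.2 hw0
      have h3 : 1 / 3 ≤ ‖riemannZeta c‖ := by
        have := (inv_le_comm₀ hpos (by norm_num)).1 hw1
        linarith
      have h4 : 1 ≤ ‖c - 1‖ := by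
        have h5 := Complex.abs_re_le_norm (c - 1)
        simp only [sub_re, hcre, one_re] at h5
        norm_num at h5
        exact h5
      nlinarith
    have hB : ∀ z ∈ ball c (2 - θ), ‖Z1 z‖ ≤ Real.exp (K * L) * ‖Z1 c‖ := by
      intro z hz
      obtain ⟨h1, h2, h3⟩ := hball z hz
      have h4 := hgr z (by linarith) h2
      have hpos3 : (0 : ℝ) < |s.im| + 3 := by linarith
      have h5 : (|z.im| + 3) ^ A ≤ (2 * (|s.im| + 3)) ^ A :=
        Real.rpow_le_rpow (by positivity) h3 (by linarith)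
      have h6 : (2 * (|s.im| + 3)) ^ A = 2 ^ A * Real.exp (A * L) := by
        rw [Real.mul_rpow (by norm_num) hpos3.le, hL, Real.rpow_def_of_pos hpos3, mul_comm A]
      have h7 : 3 * C * 2 ^ A ≤ Real.exp (|Real.log (3 * C * 2 ^ A)| * L) := by
        have hpos : (0 : ℝ) < 3 * C * 2 ^ A := by positivity
        calc 3 * C * 2 ^ A = Real.exp (Real.log (3 * C * 2 ^ A)) := (Real.exp_log hpos).symm
          _ ≤ _ := Real.exp_le_exp.2 (by
            have h9 := le_abs_self (Real.log (3 * C * 2 ^ A))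
            have h10 := abs_nonneg (Real.log (3 * C * 2 ^ A))
            nlinarith)
      calc ‖Z1 z‖ ≤ C * (|z.im| + 3) ^ A := h4
        _ ≤ C * (2 ^ A * Real.exp (A * L)) := by rw [← h6]; gcongr
        _ = (3 * C * 2 ^ A) * Real.exp (A * L) * (1 / 3) := by ring
        _ ≤ Real.exp (|Real.log (3 * C * 2 ^ A)| * L) * Real.exp (A * L) * ‖Z1 c‖ := by
            gcongr
        _ = Real.exp (K * L) * ‖Z1 c‖ := by
            rw [← Real.exp_add]; congr 2; rw [hK]; ring
    have hfin := logDeriv_zero_free (g := Z1) (c := c) (r := 2 - θ) (r2 := 2 - σ₀) (B := K * L)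
      (by linarith) (by linarith) (by linarith) (by positivity)
      (fun z _ => Z1_entire.analyticAt z)
      (fun z hz' => Z1_ne_zero hz (hball z hz').1) hB (z := s)
      (by
        rw [mem_closedBall, dist_eq_norm]
        have e : s - c = ((s.re - 2 : ℝ) : ℂ) := by
          apply Complex.ext <;> simp [hc]
        rw [e, Complex.norm_real, Real.norm_eq_abs, abs_le]
        constructor <;> linarith)
    rw [norm_neg]
    refine hfin.trans (le_of_eq ?_)
    have e1 : (2 - θ : ℝ) - (2 - σ₀) = σ₀ - θ := by ring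
    rw [e1]
    ring

end Pool.Agent.R888.QR
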