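import Pool.Agent.R888.QR.QA
import Pool.Agent.W475.MO.GI

/-!
# The Gaussian explicit formula
-/

set_option autoImplicit false

namespace Pool.Agent.R888.QR

open Complex MeasureTheory Filter Topology Set Pool.Agent.W76.MO
open Pool.Agent.W475.MO (G norm_G sum_side int_side log_le_exp bound_G e1 integrable_pole)

lemma hyp {θ : ℝ} {A : ℂ → ℂ} (hθ : 0 < θ) (hA : IsAq θ A) {σ₀ η : ℝ} (L : ℝ) (h1 : θ < σ₀) (h2 : σ₀ < 1)
    (hη : 0 < η) : ∃ K : ℝ,
    (∀ z : ℂ, z.im ∈ Set.uIcc (-σ₀) (-2) →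
      DifferentiableAt ℂ (fun z => A (I * z) * G η L (I * z)) z) ∧
    (∀ z : ℂ, z.im ∈ Set.uIcc (-σ₀) (-2) →
      ‖(fun z => A (I * z) * G η L (I * z)) z‖ ≤ K * Real.exp (-(η ^ 2 / 4) * z.re ^ 2)) := by
  obtain ⟨C, hC, hb⟩ := hA.bound σ₀ h1
  have hab : ∀ z : ℂ, z.im ∈ Set.uIcc (-σ₀) (-2) → σ₀ ≤ (I * z).re ∧ (I * z).re ≤ 2 := by
    intro z hz
    rw [Set.uIcc_of_ge (by linarith)] at hz
    have h3 : (I * z).re = -z.im := by simp
    rw [h3]
    constructor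
    · linarith [hz.2]
    · linarith [hz.1]
  refine ⟨C * ((3 + 1 / η ^ 2) * Real.exp (2 * η ^ 2 + 2 * |L|)), ?_, ?_⟩
  · intro z hz
    obtain ⟨h3, h4⟩ := hab z hz
    have hd : DifferentiableAt ℂ A (I * z) := by
      apply (hA.diff (I * z) (by
        change θ < (I * z).re
        linarith)).differentiableAt
      exact (isOpen_lt continuous_const Complex.continuous_re).mem_nhds (by
        change θ < (I * z).re
        linarith)
    have hI : DifferentiableAt ℂ (fun z : ℂ => I * z) z := by fun_prop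
    apply DifferentiableAt.mul
    · exact DifferentiableAt.comp z hd hI
    · unfold G
      fun_prop
  · intro z hz
    obtain ⟨h3, h4⟩ := hab z hz
    have him : (I * z).im = z.re := by simp
    have h5 := hb (I * z) h3 h4
    have h6 := bound_G (η := η) L (I * z) (by linarith) h4
    rw [him] at h5 h6
    have h7 := log_le_exp hη z.re
    simp only [norm_mul]
    calc ‖A (I * z)‖ * ‖G η L (I * z)‖ ≤
        (C * ((3 + 1 / η ^ 2) * Real.exp (η ^ 2 / 4 * z.re ^ 2))) *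
          (Real.exp (2 * η ^ 2 + 2 * |L|) * Real.exp (-(η ^ 2 / 2) * z.re ^ 2)) := by
          apply mul_le_mul _ h6 (norm_nonneg _) (by positivity)
          exact h5.trans (mul_le_mul_of_nonneg_left h7 hC.le)
      _ = C * ((3 + 1 / η ^ 2) * Real.exp (2 * η ^ 2 + 2 * |L|)) *
          (Real.exp (η ^ 2 / 4 * z.re ^ 2) * Real.exp (-(η ^ 2 / 2) * z.re ^ 2)) := by ring
      _ = _ := by
          rw [← Real.exp_add]
          congr 2
          ring

lemma shift {θ : ℝ} {A : ℂ → ℂ} (hθ : 0 < θ) (hA : IsAq θ A) {σ₀ η : ℝ} (L : ℝ) (h1 : θ < σ₀) (h2 : σ₀ < 1)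
    (hη : 0 < η) :
    ∫ t : ℝ, A ((σ₀ : ℂ) + t * I) * G η L ((σ₀ : ℂ) + t * I) =
      ∫ t : ℝ, A (((2 : ℝ) : ℂ) + t * I) * G η L (((2 : ℝ) : ℂ) + t * I) := by
  obtain ⟨K, ha, hb⟩ := hyp hθ hA L h1 h2 hη
  have key := Pool.Agent.Helper242.KK.shift_line (δ := η ^ 2 / 4) (by positivity) ha hb
  simp only [e1] at key
  exact key

/-- integrability on the line `Re s = 2` -/
lemma integrable_two {θ : ℝ} {A : ℂ → ℂ} (hθ : 0 < θ) (hA : IsAq θ A) {σ₀ η : ℝ} (L : ℝ) (h1 : θ < σ₀)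
    (h2 : σ₀ < 1) (hη : 0 < η) :
    Integrable (fun t : ℝ => A (((2 : ℝ) : ℂ) + t * I) * G η L (((2 : ℝ) : ℂ) + t * I)) := by
  obtain ⟨K, ha, hb⟩ := hyp hθ hA L h1 h2 hη
  have key := Pool.Agent.Helper242.KK.shift_line_integrable (δ := η ^ 2 / 4) (by positivity)
    ha hb Set.right_mem_uIcc
  simp only [e1] at key
  exact key

theorem gi {θ : ℝ} (hθ : 0 < θ) {A : ℂ → ℂ} (hA : IsAq θ A) (σ₀ η y : ℝ) (h1 : θ < σ₀)
    (h2 : σ₀ < 1) (hη : 0 < η) : ((DG η y - MG η y : ℝ) : ℂ) =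
      ((η / Real.sqrt (2 * Real.pi) : ℝ) : ℂ) * ∫ t : ℝ, A ((σ₀ : ℂ) + t * Complex.I) *
        Complex.exp ((η : ℂ) ^ 2 / 2 * ((σ₀ : ℂ) + t * Complex.I) ^ 2 +
          ((σ₀ : ℂ) + t * Complex.I) * Real.log y) := by
  have h3 := shift hθ hA (Real.log y) h1 h2 hη
  have h4 := sum_side y hη
  have h5 := int_side y hη
  have h6 : ∀ t : ℝ, LSeries (fun n => (ArithmeticFunction.vonMangoldt n : ℂ))
      (((2 : ℝ) : ℂ) + t * I) * G η (Real.log y) (((2 : ℝ) : ℂ) + t * I) =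
      A (((2 : ℝ) : ℂ) + t * I) * G η (Real.log y) (((2 : ℝ) : ℂ) + t * I) +
      1 / ((((2 : ℝ) : ℂ) + t * I) - 1) * G η (Real.log y) (((2 : ℝ) : ℂ) + t * I) := by
    intro t
    rw [hA.eq _ (by simp)]
    ring
  simp_rw [h6] at h4
  rw [integral_add (integrable_two hθ hA _ h1 h2 hη) (integrable_pole _ hη), mul_add, ← h5,
    ← h3] at h4
  rw [Complex.ofReal_sub, h4, add_sub_cancel_right]
  rfl

end Pool.Agent.R888.QR
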